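import Mathlib
import Pool.Agent.W890.SF.Stm

/-!
Structure of a fractional cover of a dense hypergraph (SAM-DI2).
-/

set_option autoImplicit false

namespace Pool.Agent.W637.SAM

open Finset Pool.Agent.W890.SF

theorem pow_diff (a b : ℝ) (hb : 0 ≤ b) (hab : b ≤ a) (ha : a ≤ 1) (k : ℕ) :
    a ^ k - b ^ k ≤ k * (a - b) := by
  induction k with
  | zero => simp
  | succ k ih =>
    have h1 : a ^ (k + 1) - b ^ (k + 1) = a * (a ^ k - b ^ k) + (a - b) * b ^ k := by ring
    have h2 : b ^ k ≤ 1 := pow_le_one₀ hb (hab.trans ha)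
    have h3 : b ^ k ≤ a ^ k := pow_le_pow_left₀ hb hab k
    have h4 : a * (a ^ k - b ^ k) ≤ 1 * (a ^ k - b ^ k) :=
      mul_le_mul_of_nonneg_right ha (sub_nonneg.2 h3)
    have h5 : (a - b) * b ^ k ≤ (a - b) * 1 := mul_le_mul_of_nonneg_left h2 (sub_nonneg.2 hab)
    rw [h1]
    push_cast
    linarith

theorem cnt_inj {n k : ℕ} (F' : Finset (Finset (Fin n))) (hU : ∀ e ∈ F', e.card = k)
    (w : Fin n → ℝ) (hw : ∀ e ∈ F', 1 ≤ ∑ v ∈ e, w v) :
    k.factorial * F'.card ≤ ({f : Fin k → Fin n | ∑ i, w (f i) < 1}ᶜ).ncard := by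
  classical
  let Φ : {e // e ∈ F'} × Equiv.Perm (Fin k) → (Fin k → Fin n) :=
    fun p i => p.1.1.orderEmbOfFin (hU p.1.1 p.1.2) (p.2 i)
  have hrange : ∀ p, Set.range (Φ p) = (p.1.1 : Set (Fin n)) := by
    intro p
    have h1 : Φ p = (p.1.1.orderEmbOfFin (hU p.1.1 p.1.2)) ∘ p.2 := rfl
    rw [h1, Set.range_comp, p.2.surjective.range_eq, Set.image_univ, Finset.range_orderEmbOfFin]
  have hinj : Function.Injective Φ := by
    rintro ⟨e, σ⟩ ⟨e', σ'⟩ he
    have h1 : (e.1 : Set (Fin n)) = (e'.1 : Set (Fin n)) := by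
      have := hrange ⟨e, σ⟩
      rw [he, hrange ⟨e', σ'⟩] at this
      exact this.symm
    have h2 : e = e' := Subtype.ext (by exact_mod_cast h1)
    subst h2
    have h3 : σ = σ' := by
      ext i
      have := congrFun he i
      have h4 : σ i = σ' i := (e.1.orderEmbOfFin (hU e.1 e.2)).injective this
      rw [h4]
    rw [h3]
  have hsub : Set.range Φ ⊆ {f : Fin k → Fin n | ∑ i, w (f i) < 1}ᶜ := by
    rintro _ ⟨p, rfl⟩
    simp only [Set.mem_compl_iff, Set.mem_ofPred_eq, not_lt]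
    have h1 : ∑ i, w (Φ p i) = ∑ v ∈ p.1.1, w v := by
      have h2 : ∑ i, w (Φ p i) = ∑ i, w (p.1.1.orderEmbOfFin (hU p.1.1 p.1.2) i) :=
        Equiv.sum_comp p.2 (fun i => w (p.1.1.orderEmbOfFin (hU p.1.1 p.1.2) i))
      have h3 : ∑ v ∈ p.1.1, w v =
          ∑ v ∈ univ.map (p.1.1.orderEmbOfFin (hU p.1.1 p.1.2)).toEmbedding, w v := by
        rw [Finset.map_orderEmbOfFin_univ]
      rw [h2, h3, Finset.sum_map]
      rfl
    rw [h1]
    exact hw _ p.1.2
  calc k.factorial * F'.card = Nat.card ({e // e ∈ F'} × Equiv.Perm (Fin k)) := by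
        rw [Nat.card_prod, Nat.card_eq_fintype_card, Nat.card_eq_fintype_card, Fintype.card_coe,
          Fintype.card_perm, Fintype.card_fin, mul_comm]
    _ = Nat.card (Set.range Φ) := (Nat.card_range_of_injective hinj).symm
    _ = (Set.range Φ).ncard := rfl
    _ ≤ _ := Set.ncard_le_ncard hsub (Set.toFinite _)

theorem meet_card {n k : ℕ} (F : Finset (Finset (Fin n))) (hF : Unif (k + 1) F)
    (R : Finset (Fin n)) :
    (F.filter (fun e => ¬ Disjoint e R)).card ≤ R.card * n ^ k := by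
  classical
  have h1 : F.filter (fun e => ¬ Disjoint e R) ⊆
      R.biUnion (fun v => F.filter (fun e => v ∈ e)) := by
    intro e he
    rw [mem_filter] at he
    obtain ⟨he1, he2⟩ := he
    rw [Finset.not_disjoint_iff] at he2
    obtain ⟨v, hv1, hv2⟩ := he2
    exact mem_biUnion.2 ⟨v, hv2, mem_filter.2 ⟨he1, hv1⟩⟩
  refine (card_le_card h1).trans (card_biUnion_le_card_mul _ _ _ fun v _ => ?_)
  have h2 : (F.filter (fun e => v ∈ e)).card ≤ ((univ : Finset (Fin n)).powersetCard k).card := by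
    refine card_le_card_of_injOn (fun e => e.erase v) ?_ ?_
    · intro e he
      have he' := mem_filter.1 (mem_coe.1 he)
      rw [mem_coe, mem_powersetCard]
      refine ⟨subset_univ _, ?_⟩
      rw [card_erase_of_mem he'.2, hF e he'.1]
      rfl
    · intro e he e' he' hee
      have h3 := mem_filter.1 (mem_coe.1 he)
      have h4 := mem_filter.1 (mem_coe.1 he')
      have h5 : e.erase v = e'.erase v := hee
      rw [← insert_erase h3.2, ← insert_erase h4.2, h5]
  refine h2.trans ?_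
  rw [card_powersetCard, card_univ, Fintype.card_fin]
  have h6 := Nat.choose_le_descFactorial n k
  exact h6.trans (Nat.descFactorial_le_pow n k)

theorem choose_lower {n k s : ℕ} (hkn : k ≤ n) (hn : 0 < n) (hsn : s ≤ n) (N : ℕ)
    (hN : n.choose k - (n - s).choose k ≤ N) :
    (n : ℝ) ^ k * (1 - (k : ℝ) ^ 2 / n - (1 - (s : ℝ) / n) ^ k) ≤ k.factorial * (N : ℝ) := by
  have hn0 : (0 : ℝ) < n := by exact_mod_cast hn
  have h1 : (n.choose k : ℝ) - ((n - s).choose k : ℝ) ≤ (N : ℝ) := by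
    have : n.choose k ≤ N + (n - s).choose k := by omega
    have h2 : (n.choose k : ℝ) ≤ (N : ℝ) + ((n - s).choose k : ℝ) := by exact_mod_cast this
    linarith
  have hf : (0 : ℝ) < k.factorial := by exact_mod_cast k.factorial_pos
  have h2 : (k.factorial : ℝ) * (n.choose k : ℝ) = (n.descFactorial k : ℝ) := by
    rw [Nat.descFactorial_eq_factorial_mul_choose]; push_cast; ring
  have h3 : (k.factorial : ℝ) * ((n - s).choose k : ℝ) = ((n - s).descFactorial k : ℝ) := by
    rw [Nat.descFactorial_eq_factorial_mul_choose]; push_cast; ring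
  have h4 : ((n - s).descFactorial k : ℝ) ≤ (n : ℝ) ^ k * (1 - (s : ℝ) / n) ^ k := by
    have h5 : (n - s).descFactorial k ≤ (n - s) ^ k := Nat.descFactorial_le_pow _ _
    have h6 : (((n - s : ℕ) : ℝ)) = (n : ℝ) * (1 - (s : ℝ) / n) := by
      rw [Nat.cast_sub hsn]; field_simp
    calc ((n - s).descFactorial k : ℝ) ≤ (((n - s) ^ k : ℕ) : ℝ) := by exact_mod_cast h5
      _ = (n : ℝ) ^ k * (1 - (s : ℝ) / n) ^ k := by
        rw [Nat.cast_pow, h6, mul_pow]
  have h5 : (n : ℝ) ^ k * (1 - (k : ℝ) ^ 2 / n) ≤ (n.descFactorial k : ℝ) := by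
    have h6 : (n + 1 - k) ^ k ≤ n.descFactorial k := Nat.pow_sub_le_descFactorial n k
    have h7 : (n : ℝ) * (1 + -((k : ℝ) / n)) ≤ ((n + 1 - k : ℕ) : ℝ) := by
      rw [Nat.cast_sub (by omega)]
      push_cast
      have : (n : ℝ) * (1 + -((k : ℝ) / n)) = n - k := by field_simp; ring
      rw [this]; linarith
    have hkn' : (k : ℝ) / n ≤ 1 := by
      rw [div_le_one hn0]; exact_mod_cast hkn
    have h8 : 1 + (k : ℝ) * -((k : ℝ) / n) ≤ (1 + -((k : ℝ) / n)) ^ k :=
      one_add_mul_le_pow (by linarith) k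
    calc (n : ℝ) ^ k * (1 - (k : ℝ) ^ 2 / n) = (n : ℝ) ^ k * (1 + (k : ℝ) * -((k : ℝ) / n)) := by
          ring
      _ ≤ (n : ℝ) ^ k * (1 + -((k : ℝ) / n)) ^ k :=
          mul_le_mul_of_nonneg_left h8 (by positivity)
      _ = ((n : ℝ) * (1 + -((k : ℝ) / n))) ^ k := by rw [mul_pow]
      _ ≤ ((n + 1 - k : ℕ) : ℝ) ^ k :=
          pow_le_pow_left₀ (mul_nonneg hn0.le (by linarith)) h7 k
      _ ≤ (n.descFactorial k : ℝ) := by exact_mod_cast h6
  have h6 : (k.factorial : ℝ) * ((n.choose k : ℝ) - ((n - s).choose k : ℝ)) ≤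
      k.factorial * (N : ℝ) := mul_le_mul_of_nonneg_left h1 hf.le
  rw [mul_sub, h2, h3] at h6
  have h7 : (n : ℝ) ^ k * (1 - (k : ℝ) ^ 2 / n - (1 - (s : ℝ) / n) ^ k) =
      (n : ℝ) ^ k * (1 - (k : ℝ) ^ 2 / n) - (n : ℝ) ^ k * (1 - (s : ℝ) / n) ^ k := by ring
  rw [h7]
  linarith

theorem di2 (h : S_SAS) : S_DI2 := by
  intro k hk x0 γ hx0 hγ
  classical
  have hk2 : (2 : ℝ) ≤ k := by exact_mod_cast hk
  have hk0 : (0 : ℝ) < k := by linarith
  obtain ⟨g, hg0, hkg, hg2⟩ : ∃ g : ℝ, 0 < g ∧ k * g ≤ 1 / 2 ∧ g ≤ γ / 8 := by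
    refine ⟨min (1 / (2 * (k : ℝ))) (γ / 8), lt_min (by positivity) (by positivity), ?_,
      min_le_right _ _⟩
    calc (k : ℝ) * min (1 / (2 * (k : ℝ))) (γ / 8) ≤ k * (1 / (2 * (k : ℝ))) :=
          mul_le_mul_of_nonneg_left (min_le_left _ _) hk0.le
      _ = 1 / 2 := by field_simp
  have hg3 : g ≤ 1 / 4 := by
    have := mul_le_mul_of_nonneg_right hk2 hg0.le
    linarith
  obtain ⟨η, hη, hS⟩ := h k hk x0 g hx0 hg0
  obtain ⟨δ, hδ0, hδ1, hδ2, hδ3⟩ : ∃ δ : ℝ, 0 < δ ∧ δ * (40 * k + 38) ≤ 1 ∧ k * δ ≤ η / 4 ∧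
      δ ≤ γ / 4 := by
    refine ⟨min (1 / (40 * (k : ℝ) + 38)) (min (η / (4 * (k : ℝ))) (γ / 4)),
      lt_min (by positivity) (lt_min (by positivity) (by positivity)), ?_, ?_, ?_⟩
    · calc min (1 / (40 * (k : ℝ) + 38)) (min (η / (4 * k)) (γ / 4)) * (40 * k + 38)
          ≤ (1 / (40 * (k : ℝ) + 38)) * (40 * k + 38) :=
            mul_le_mul_of_nonneg_right (min_le_left _ _) (by positivity)
        _ = 1 := by field_simp
    · calc (k : ℝ) * min (1 / (40 * (k : ℝ) + 38)) (min (η / (4 * k)) (γ / 4))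
          ≤ k * (η / (4 * k)) :=
            mul_le_mul_of_nonneg_left ((min_le_right _ _).trans (min_le_left _ _)) hk0.le
        _ = η / 4 := by field_simp
    · exact (min_le_right _ _).trans (min_le_right _ _)
  have hδ4 : δ ≤ 1 / 4 := by
    have := mul_le_mul_of_nonneg_right hk2 hδ0.le
    have e : δ * (40 * k + 38) = 40 * (k * δ) + 38 * δ := by ring
    linarith
  have hf : (0 : ℝ) < k.factorial := by exact_mod_cast k.factorial_pos
  obtain ⟨c, hc0, hc1, hc2⟩ : ∃ c : ℝ, 0 < c ∧ k.factorial * c ≤ η / 4 ∧ c ≤ γ / 2 := by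
    refine ⟨min (η / (4 * (k.factorial : ℝ))) (γ / 2), lt_min (by positivity) (by positivity), ?_,
      min_le_right _ _⟩
    calc (k.factorial : ℝ) * min (η / (4 * (k.factorial : ℝ))) (γ / 2)
        ≤ k.factorial * (η / (4 * (k.factorial : ℝ))) :=
          mul_le_mul_of_nonneg_left (min_le_left _ _) hf.le
      _ = η / 4 := by field_simp
  refine ⟨c, δ / 4, δ / 4, hc0, by positivity, by linarith, by positivity,
    ⌈4 * (k : ℝ) ^ 2 / η⌉₊ + k, ?_⟩
  intro n hn F hF s hs hs2 hcard y hy0 hys hcov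
  have hkn : k ≤ n := by omega
  have hn1 : 0 < n := by omega
  have hn0 : (0 : ℝ) < n := by exact_mod_cast hn1
  have hnη : (k : ℝ) ^ 2 / n ≤ η / 4 := by
    have h0 : ⌈4 * (k : ℝ) ^ 2 / η⌉₊ ≤ n := by omega
    have h1 : 4 * (k : ℝ) ^ 2 / η ≤ n := (Nat.le_ceil _).trans (Nat.cast_le.2 h0)
    rw [div_le_iff₀ hη] at h1
    rw [div_le_iff₀ hn0]
    linarith
  have hs2' : (40 * (k : ℝ) + 39) * s ≤ 40 * n := by exact_mod_cast hs2
  have hs0 : (0 : ℝ) ≤ s := Nat.cast_nonneg s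
  have hsn' : 2 * (s : ℝ) ≤ n := by
    have := mul_le_mul_of_nonneg_right hk2 hs0
    have e : (40 * (k : ℝ) + 39) * s = 40 * (k * s) + 39 * s := by ring
    linarith
  have hsn : s ≤ n := by
    have : (s : ℝ) ≤ n := by linarith
    exact_mod_cast this
  have hτ : (0 : ℝ) < 1 - δ / 4 := by linarith
  set x' : ℝ := (1 + δ) * s / n with hx'
  have hx'n : x' * n = (1 + δ) * s := by rw [hx']; field_simp
  set Y : ℝ := (∑ v, y v) / (1 - δ / 4) with hY
  have hYle : Y ≤ (1 + δ) * s := by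
    rw [hY, div_le_iff₀ hτ]
    refine hys.trans ?_
    have : (1 + δ) * s * (1 - δ / 4) - (1 + δ / 4) * s = s * (δ / 2 - δ ^ 2 / 4) := by ring
    have h2 : 0 ≤ s * (δ / 2 - δ ^ 2 / 4) := by
      refine mul_nonneg hs0 ?_
      have h3 := mul_le_mul_of_nonneg_left hδ4 hδ0.le
      have h4 : δ ^ 2 = δ * δ := by ring
      linarith
    linarith
  set d : ℝ := (x' * n - Y) / n with hd
  have hd0 : 0 ≤ d := by
    rw [hd]
    refine div_nonneg ?_ hn0.le
    rw [hx'n]; linarith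
  set z : Fin n → ℝ := fun v => y v / (1 - δ / 4) + d with hz
  have hz0 : ∀ v, 0 ≤ z v := fun v => add_nonneg (div_nonneg (hy0 v) hτ.le) hd0
  have hzsum : ∑ v, z v = x' * n := by
    simp only [hz]
    rw [sum_add_distrib, ← sum_div, ← hY, sum_const, card_univ, Fintype.card_fin, nsmul_eq_mul, hd]
    field_simp
    ring
  have hx'0 : 0 ≤ x' := by rw [hx']; positivity
  have hx'1 : x' ≤ 1 := by
    rw [hx', div_le_one hn0]
    have h1 := mul_le_mul_of_nonneg_right hδ4 hs0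
    have h2 : (1 + δ) * (s : ℝ) = s + δ * s := by ring
    linarith
  have hxx : (s : ℝ) / n ≤ x' := by
    rw [hx']
    refine div_le_div_of_nonneg_right ?_ hn0.le
    have h1 := mul_nonneg hδ0.le hs0
    have h2 : (1 + δ) * (s : ℝ) = s + δ * s := by ring
    linarith
  have hxd : x' - (s : ℝ) / n ≤ δ := by
    have h1 : x' - (s : ℝ) / n = δ * (s / n) := by rw [hx']; ring
    have h2 : (s : ℝ) / n ≤ 1 := hxx.trans hx'1
    rw [h1]
    exact mul_le_of_le_one_right hδ0.le h2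
  -- the covered edges
  set F' : Finset (Finset (Fin n)) := F.filter (fun e => ¬ (∑ v ∈ e, y v ≤ 1 - δ / 4)) with hF'
  have hzF : ∀ e ∈ F', 1 ≤ ∑ v ∈ e, z v := by
    intro e he
    rw [hF', mem_filter] at he
    have h1 : 1 - δ / 4 < ∑ v ∈ e, y v := not_le.1 he.2
    simp only [hz]
    rw [sum_add_distrib, ← sum_div]
    have h2 : 1 < (∑ v ∈ e, y v) / (1 - δ / 4) := by rwa [lt_div_iff₀ hτ, one_mul]
    have h3 : 0 ≤ ∑ _v ∈ e, d := sum_nonneg fun _ _ => hd0
    linarith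
  have hsplit : (F.filter (fun e => ∑ v ∈ e, y v ≤ 1 - δ / 4)).card + F'.card = F.card := by
    rw [hF']; exact card_filter_add_card_filter_not _
  have hF'card : (F.card : ℝ) - c * (n : ℝ) ^ k ≤ (F'.card : ℝ) := by
    have : ((F.filter (fun e => ∑ v ∈ e, y v ≤ 1 - δ / 4)).card : ℝ) + (F'.card : ℝ) =
        (F.card : ℝ) := by exact_mod_cast hsplit
    linarith
  have hcount : (({f : Fin k → Fin n | ∑ i, z (f i) < 1}.ncard : ℕ) : ℝ) ≤
      ((1 - x') ^ k + η) * (n : ℝ) ^ k := by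
    have h1 := cnt_inj F' (fun e he => hF e (mem_filter.1 he).1) z hzF
    have h2 := Set.ncard_add_ncard_compl {f : Fin k → Fin n | ∑ i, z (f i) < 1}
      (Set.toFinite _) (Set.toFinite _)
    have h3 : Nat.card (Fin k → Fin n) = n ^ k := by simp
    rw [h3] at h2
    have h4 : (({f : Fin k → Fin n | ∑ i, z (f i) < 1}.ncard : ℕ) : ℝ) +
        k.factorial * (F'.card : ℝ) ≤ (n : ℝ) ^ k := by
      have : {f : Fin k → Fin n | ∑ i, z (f i) < 1}.ncard + k.factorial * F'.card ≤ n ^ k := by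
        omega
      exact_mod_cast this
    have h5 := choose_lower hkn hn1 hsn F.card hcard
    have h6 : (1 - (s : ℝ) / n) ^ k - (1 - x') ^ k ≤ k * ((1 - (s : ℝ) / n) - (1 - x')) := by
      refine pow_diff _ _ (by linarith) (by linarith) ?_ k
      have : 0 ≤ (s : ℝ) / n := by positivity
      linarith
    have h7 : (k : ℝ) * ((1 - (s : ℝ) / n) - (1 - x')) ≤ η / 4 := by
      have : (1 - (s : ℝ) / n) - (1 - x') ≤ δ := by linarith
      exact (mul_le_mul_of_nonneg_left this hk0.le).trans hδ2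
    have hnk : (0 : ℝ) ≤ (n : ℝ) ^ k := by positivity
    have h8 : k.factorial * ((F.card : ℝ) - c * (n : ℝ) ^ k) ≤ k.factorial * (F'.card : ℝ) :=
      mul_le_mul_of_nonneg_left hF'card hf.le
    have h9 : k.factorial * c * (n : ℝ) ^ k ≤ η / 4 * (n : ℝ) ^ k :=
      mul_le_mul_of_nonneg_right hc1 hnk
    have h10 : (n : ℝ) ^ k * ((k : ℝ) ^ 2 / n + (1 - (s : ℝ) / n) ^ k) ≤
        (n : ℝ) ^ k * (η / 4 + ((1 - x') ^ k + η / 4)) :=
      mul_le_mul_of_nonneg_left (by linarith) hnk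
    generalize (({f : Fin k → Fin n | ∑ i, z (f i) < 1}.ncard : ℕ) : ℝ) = a at h4 ⊢
    generalize (n : ℝ) ^ k = A at h4 h5 h8 h9 h10 hnk ⊢
    generalize (1 - (s : ℝ) / n) ^ k = P at h5 h10
    generalize (1 - x') ^ k = Q at h10 ⊢
    generalize (k : ℝ) ^ 2 / n = T at h5 h10
    generalize (F.card : ℝ) = f1 at h5 h8
    generalize (F'.card : ℝ) = f2 at h4 h8
    have e1 : A * (1 - T - P) = A - A * (T + P) := by ring
    have e2 : (k.factorial : ℝ) * (f1 - c * A) = k.factorial * f1 - k.factorial * c * A := by ring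
    have e3 : A * (η / 4 + (Q + η / 4)) = A * Q + η / 2 * A := by ring
    have e4 : (Q + η) * A = A * Q + η * A := by ring
    have e5 : 0 ≤ η * A := mul_nonneg hη.le hnk
    rw [e1] at h5
    rw [e2] at h8
    rw [e3] at h10
    rw [e4]
    linarith
  have : Nonempty (Fin n) := ⟨⟨0, hn1⟩⟩
  have hx0' : x0 ≤ x' := by
    refine le_trans ?_ hxx
    rw [le_div_iff₀ hn0]; exact hs
  have hx20 : (20 * (k : ℝ) + 19) * x' ≤ 20 := by
    rw [hx', mul_div_assoc', div_le_iff₀ hn0]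
    have h1 : (1 + δ) * (40 * k + 38) ≤ 40 * (k : ℝ) + 39 := by
      have e : (1 + δ) * (40 * (k : ℝ) + 38) = (40 * k + 38) + δ * (40 * k + 38) := by ring
      linarith
    have h2 : (1 + δ) * (40 * k + 38) * s ≤ (40 * (k : ℝ) + 39) * s :=
      mul_le_mul_of_nonneg_right h1 hs0
    have e : (20 * (k : ℝ) + 19) * ((1 + δ) * s) = ((1 + δ) * (40 * k + 38) * s) / 2 := by ring
    linarith
  have hR := hS x' hx0' hx20 (Fin n) z hz0 (by rw [Fintype.card_fin]; exact hzsum)
    (by rw [Fintype.card_fin]; exact hcount)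
  rw [Fintype.card_fin] at hR
  refine ⟨univ.filter (fun v => 1 - g ≤ z v), ?_, ?_⟩
  · -- size of S
    have h1 : (1 - g) * ((univ.filter (fun v => 1 - g ≤ z v)).card : ℝ) ≤ x' * n := by
      rw [← hzsum]
      calc (1 - g) * ((univ.filter (fun v => 1 - g ≤ z v)).card : ℝ)
          = ∑ v ∈ univ.filter (fun v => 1 - g ≤ z v), (1 - g) := by
            rw [sum_const, nsmul_eq_mul]; ring
        _ ≤ ∑ v ∈ univ.filter (fun v => 1 - g ≤ z v), z v :=
            sum_le_sum fun v hv => (mem_filter.1 hv).2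
        _ ≤ ∑ v, z v := sum_le_sum_of_subset_of_nonneg (subset_univ _) fun v _ _ => hz0 v
    have h2 : (1 - g) * (s + γ * n) - x' * n ≥ 0 := by
      rw [hx'n]
      have e : (1 - g) * (s + γ * n) - (1 + δ) * s = (1 - g) * γ * n - (g + δ) * s := by ring
      rw [e]
      have h3 : (g + δ) * s ≤ (γ / 8 + γ / 4) * (n / 2) :=
        mul_le_mul (by linarith) (by linarith) hs0 (by positivity)
      have h4 : 3 / 4 * γ * n ≤ (1 - g) * γ * n := by
        refine mul_le_mul_of_nonneg_right (mul_le_mul_of_nonneg_right (by linarith) hγ.le) hn0.le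
      have h5 : (γ / 8 + γ / 4) * ((n : ℝ) / 2) = 3 / 16 * (γ * n) := by ring
      have h6 : 3 / 4 * γ * (n : ℝ) = 3 / 4 * (γ * n) := by ring
      have h7 := mul_pos hγ hn0
      linarith
    have h3 : (1 - g) * ((univ.filter (fun v => 1 - g ≤ z v)).card : ℝ) ≤
        (1 - g) * (s + γ * n) := by linarith
    exact le_of_mul_le_mul_left h3 (by linarith)
  · -- edges disjoint from S
    set R : Finset (Fin n) := univ.filter (fun v => g < z v ∧ z v < 1 - g) with hRdef
    have hRc : (R.card : ℝ) ≤ g * n := by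
      have : {v : Fin n | g < z v ∧ z v < 1 - g}.ncard = R.card := by
        rw [hRdef, ← Set.ncard_coe_finset]
        congr 1
        ext v; simp
      rw [← this]; exact hR
    obtain ⟨k', rfl⟩ : ∃ k', k = k' + 1 := ⟨k - 1, by omega⟩
    have hsub : F.filter (fun e => Disjoint e (univ.filter (fun v => 1 - g ≤ z v))) ⊆
        F.filter (fun e => ∑ v ∈ e, y v ≤ 1 - δ / 4) ∪ F.filter (fun e => ¬ Disjoint e R) := by
      intro e he
      rw [mem_filter] at he
      obtain ⟨heF, hed⟩ := he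
      rw [mem_union]
      by_cases h1 : ∑ v ∈ e, y v ≤ 1 - δ / 4
      · left; exact mem_filter.2 ⟨heF, h1⟩
      · right
        refine mem_filter.2 ⟨heF, fun hdis => ?_⟩
        have h2 := hzF e (mem_filter.2 ⟨heF, h1⟩)
        have h3 : ∑ v ∈ e, z v ≤ ∑ _v ∈ e, g := by
          refine sum_le_sum fun v hv => ?_
          by_contra hlt
          rw [not_le] at hlt
          have h4 : z v < 1 - g := by
            by_contra h5
            rw [not_lt] at h5
            exact (Finset.disjoint_left.1 hed hv) (mem_filter.2 ⟨mem_univ _, h5⟩)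
          exact (Finset.disjoint_left.1 hdis hv) (mem_filter.2 ⟨mem_univ _, hlt, h4⟩)
        rw [sum_const, hF e heF, nsmul_eq_mul] at h3
        linarith
    have h1 := (card_le_card hsub).trans (card_union_le _ _)
    have h2 := meet_card F hF R
    have h3 : ((F.filter (fun e => Disjoint e (univ.filter (fun v => 1 - g ≤ z v)))).card : ℝ) ≤
        ((F.filter (fun e => ∑ v ∈ e, y v ≤ 1 - δ / 4)).card : ℝ) + (R.card : ℝ) * (n : ℝ) ^ k' := by
      have : (F.filter (fun e => Disjoint e (univ.filter (fun v => 1 - g ≤ z v)))).card ≤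
          (F.filter (fun e => ∑ v ∈ e, y v ≤ 1 - δ / 4)).card + R.card * n ^ k' :=
        h1.trans (Nat.add_le_add_left h2 _)
      exact_mod_cast this
    have h4 : (R.card : ℝ) * (n : ℝ) ^ k' ≤ g * (n : ℝ) ^ (k' + 1) := by
      calc (R.card : ℝ) * (n : ℝ) ^ k' ≤ g * n * (n : ℝ) ^ k' :=
            mul_le_mul_of_nonneg_right hRc (by positivity)
        _ = g * (n : ℝ) ^ (k' + 1) := by ring
    have h5 : (c + g) * (n : ℝ) ^ (k' + 1) ≤ γ * (n : ℝ) ^ (k' + 1) :=
      mul_le_mul_of_nonneg_right (by linarith) (by positivity)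
    linarith

end Pool.Agent.W637.SAM
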